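import Pool.Agent.Helper41.Girth4.Stmts

/-!
# Packet D of MP_246f82_co: the law of the process on trees
-/

namespace Pool.Agent.Helper82.Girth4

open Pool.Agent.Helper41.Girth4 Finset

/-! ### Elementary probability -/

open Classical in
theorem Pr_eq {α : Type*} [Fintype α] (A : α → Prop) :
    Pr A = (∑ x, if A x then (1 : ℝ) else 0) / Fintype.card α := by
  unfold Pr
  rw [Nat.card_eq_fintype_card, Nat.card_eq_fintype_card, Fintype.card_subtype,
    Finset.sum_boole]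

theorem Pr_congr' {α : Type*} {A B : α → Prop} (h : ∀ x, A x ↔ B x) : Pr A = Pr B := by
  have : A = B := funext fun x => propext (h x)
  rw [this]

theorem Pr_equiv' {α β : Type*} (e : α ≃ β) (A : β → Prop) : Pr (fun x => A (e x)) = Pr A := by
  unfold Pr
  rw [Nat.card_congr e, Nat.card_congr (e.subtypeEquiv (p := fun x => A (e x)) (q := A)
    (fun _ => Iff.rfl))]

theorem Pr_true' {α : Type*} [Finite α] [Nonempty α] {A : α → Prop} (h : ∀ x, A x) :
    Pr A = 1 := by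
  classical
  have := Fintype.ofFinite α
  rw [Pr_eq]
  simp only [h, if_true, Finset.sum_const, Finset.card_univ, nsmul_eq_mul, mul_one]
  exact div_self (by exact_mod_cast Fintype.card_ne_zero)

theorem Pr_false' {α : Type*} {A : α → Prop} (h : ∀ x, ¬ A x) : Pr A = 0 := by
  unfold Pr
  have : IsEmpty {x // A x} := ⟨fun x => h x.1 x.2⟩
  simp

theorem Pr_sub' {α : Type*} [Finite α] {A B : α → Prop} (h : ∀ x, B x → A x) :
    Pr (fun x => A x ∧ ¬ B x) = Pr A - Pr B := by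
  classical
  have := Fintype.ofFinite α
  rw [Pr_eq, Pr_eq, Pr_eq, ← sub_div, ← Finset.sum_sub_distrib]
  congr 1
  apply Finset.sum_congr rfl
  intro x _
  by_cases hB : B x
  · simp [hB, h x hB]
  · by_cases hA : A x <;> simp [hA, hB]

theorem Pr_part {α : Type*} [Finite α] (A : α → Prop) (c : α → ℕ) (m : ℕ)
    (hc : ∀ x, c x ≤ m) :
    Pr A = ∑ j ∈ range (m + 1), Pr (fun x => A x ∧ c x = j) := by
  classical
  have := Fintype.ofFinite α
  simp only [Pr_eq]
  rw [← Finset.sum_div, Finset.sum_comm]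
  congr 1
  apply Finset.sum_congr rfl
  intro x _
  by_cases hA : A x
  · have : c x ∈ range (m + 1) := by
      rw [mem_range]; exact Nat.lt_succ_of_le (hc x)
    simp only [hA, if_true, true_and]
    rw [Finset.sum_ite_eq, if_pos this]
  · simp [hA]

theorem Pr_avg {U L W : Type*} [Finite U] [Fintype L] [Finite W]
    (F : U → L → W → Prop) :
    Pr (fun z : (U × L) × W => F z.1.1 z.1.2 z.2) =
      (∑ ℓ, Pr (fun z : U × W => F z.1 ℓ z.2)) / Fintype.card L := by
  classical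
  have := Fintype.ofFinite U
  have := Fintype.ofFinite W
  simp only [Pr_eq]
  rw [← Finset.sum_div, div_div, Fintype.sum_prod_type, Fintype.sum_prod_type, Finset.sum_comm]
  congr 1
  · apply Finset.sum_congr rfl
    intro ℓ _
    rw [Fintype.sum_prod_type]
  · simp only [Fintype.card_prod, Nat.cast_mul]
    ring

/-! ### Counting in the tournament -/

theorem card_not_beats {M : ℕ} [NeZero M] (hM : M % 2 = 1) (a : ZMod M) :
    Nat.card {b : ZMod M // ¬ beats a b} = (M + 1) / 2 := by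
  classical
  have hpos : 0 < M := Nat.pos_of_ne_zero (NeZero.ne M)
  -- reflect
  have e1 : Nat.card {b : ZMod M // ¬ beats a b} =
      Nat.card {c : ZMod M // ¬ (0 < c.val ∧ 2 * c.val < M)} := by
    apply Nat.card_congr
    refine (Equiv.subLeft a).subtypeEquiv ?_
    intro b
    rfl
  -- split
  have e2 : Nat.card {c : ZMod M // (0 < c.val ∧ 2 * c.val < M)} = (M - 1) / 2 := by
    have : Nat.card {c : ZMod M // (0 < c.val ∧ 2 * c.val < M)} =
        Nat.card (Fin ((M - 1) / 2)) := by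
      apply Nat.card_congr
      refine ⟨fun c => ⟨c.1.val - 1, ?_⟩, fun i => ⟨((i.1 + 1 : ℕ) : ZMod M), ?_⟩, ?_, ?_⟩
      · obtain ⟨h1, h2⟩ := c.2
        omega
      · have hi := i.2
        have hv : ((i.1 + 1 : ℕ) : ZMod M).val = i.1 + 1 := ZMod.val_natCast_of_lt (by omega)
        rw [hv]
        omega
      · rintro ⟨c, h1, h2⟩
        apply Subtype.ext
        change ((c.val - 1 + 1 : ℕ) : ZMod M) = c
        rw [Nat.sub_add_cancel h1, ZMod.natCast_zmod_val]
      · rintro ⟨i, hi⟩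
        apply Fin.ext
        change (((i + 1 : ℕ) : ZMod M)).val - 1 = i
        rw [ZMod.val_natCast_of_lt (by omega)]
        omega
    rw [this, Nat.card_eq_fintype_card, Fintype.card_fin]
  have e3 : Nat.card {c : ZMod M // (0 < c.val ∧ 2 * c.val < M)} +
      Nat.card {c : ZMod M // ¬ (0 < c.val ∧ 2 * c.val < M)} = M := by
    have : Fintype (ZMod M) := Fintype.ofFinite _
    rw [Nat.card_eq_fintype_card, Nat.card_eq_fintype_card, Fintype.card_subtype_compl,
      ← Nat.card_eq_fintype_card (α := ZMod M), Nat.card_zmod]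
    have : Fintype.card {c : ZMod M // (0 < c.val ∧ 2 * c.val < M)} ≤ M := by
      have := Fintype.card_subtype_le (fun c : ZMod M => (0 < c.val ∧ 2 * c.val < M))
      rwa [← Nat.card_eq_fintype_card (α := ZMod M), Nat.card_zmod] at this
    omega
  omega

variable {P : Par}

theorem sum_not_beats (ℓ : ZMod P.M) (x : ℝ) (F : ZMod P.M → ℝ)
    (h1 : ∀ b, ¬ beats ℓ b → F b = x) (h2 : ∀ b, beats ℓ b → F b = 0) :
    (∑ b, F b) / P.M = bet' P * x := by
  classical
  have e : ∀ b, F b = (if ¬ beats ℓ b then (1 : ℝ) else 0) * x := by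
    intro b
    by_cases hb : beats ℓ b
    · simp [hb, h2 b hb]
    · simp [hb, h1 b hb]
  rw [Finset.sum_congr rfl (fun b _ => e b), ← Finset.sum_mul, Finset.sum_boole,
    ← Fintype.card_subtype, ← Nat.card_eq_fintype_card, card_not_beats P.hM]
  have h2' : (((P.M + 1) / 2 : ℕ) : ℝ) = ((P.M : ℝ) + 1) / 2 := by
    have := P.hM
    rw [Nat.cast_div (by omega) (by norm_num)]
    push_cast
    rfl
  rw [h2']
  unfold bet'
  have : (P.M : ℝ) ≠ 0 := by exact_mod_cast NeZero.ne P.M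
  field_simp

/-! ### The tree with one more level -/

/-- Labellings of finite trees. -/
abbrev Om (P : Par) (D : ℕ) : Type := Pos D → Lab P

instance instFiniteOm (D : ℕ) : Finite (Om P D) := inferInstance
instance instNonemptyOm (D : ℕ) : Nonempty (Om P D) := ⟨fun _ => default⟩

/-- splitting off the root -/
def split (D : ℕ) : Om P (D + 1) ≃
    ((Fin P.K → Fin P.N) × ZMod P.M) × (Fin 3 → Om P D) where
  toFun X := (X none, fun i z => X (some (i, z)))
  invFun y := fun o => match o with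
    | none => y.1
    | some (i, z) => y.2 i z
  left_inv X := by
    funext o
    cases o with
    | none => rfl
    | some o => rfl
  right_inv y := rfl

theorem sub_ext (D : ℕ) (X : Om P (D + 1)) (i : Fin 3) :
    sub (ext (D + 1) X) i = ext D ((split D X).2 i) := rfl

theorem ext_root (D : ℕ) (X : Om P (D + 1)) : ext (D + 1) X [] = (split D X).1 := rfl

theorem Pr_root (D : ℕ) (F : (Fin P.K → Fin P.N) → ZMod P.M → (Fin 3 → Om P D) → Prop) :
    Pr (fun X : Om P (D + 1) => F (split D X).1.1 (split D X).1.2 (split D X).2) =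
      (∑ ℓ, Pr (fun z : (Fin P.K → Fin P.N) × (Fin 3 → Om P D) => F z.1 ℓ z.2)) / P.M := by
  rw [Pr_equiv' (split D) (fun z => F z.1.1 z.1.2 z.2), Pr_avg, ZMod.card]

/-! ### Unfolding the process -/

theorem St_Al {t : ℕ} {X : Tr P} (h : St t X) : Al t X := h.1.1

theorem Rg_Al {t : ℕ} {X : Tr P} (h : Rg t X) : Al t X := h.1

theorem Al_succ {t : ℕ} {X : Tr P} (h : Al (t + 1) X) : Al t X ∧ ¬ St t X :=
  ⟨h.1, fun h' => h.2.1 h'.1⟩

theorem Al_iff (t : ℕ) (X : Tr P) : Al t X ↔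
    ∀ s < t, ¬ (clk P (X []).1 s < P.thr s (cnt (fun k => Al s (sub X k)) + 1)) ∧
      ∀ k, ¬ St s (sub X k) := by
  induction t with
  | zero => simp [Al]
  | succ t ih =>
    constructor
    · intro h s hs
      rcases Nat.lt_succ_iff_lt_or_eq.1 hs with hs | rfl
      · exact ih.1 h.1 s hs
      · exact ⟨fun h' => h.2.1 ⟨h.1, h'⟩, h.2.2⟩
    · intro h
      have h0 : Al t X := ih.2 (fun s hs => h s (by omega))
      exact ⟨h0, fun h' => (h t (by omega)).1 h'.2, (h t (by omega)).2⟩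

theorem lg_eq (t : ℕ) : lg P t = yG 3 (fun t i => pr P t (i + 1)) (ld P) t := by
  induction t with
  | zero => rfl
  | succ t ih =>
    change stepY 3 (fun j => pr P t (j + 1)) (ld P t) (lg P t) = _
    rw [ih]
    rfl

theorem cnt_le {n : ℕ} (A : Fin n → Prop) : cnt A ≤ n := by
  unfold cnt
  have := Nat.card_le_card_of_injective (fun x : {i // A i} => x.1) Subtype.val_injective
  rwa [Nat.card_eq_fintype_card (α := Fin n), Fintype.card_fin] at this

/-- the event that the root survives before `t` -/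
def Sv (D t : ℕ) (u : Fin P.K → Fin P.N) (Y : Fin 3 → Om P D) : Prop :=
  ∀ s < t, ¬ (clk P u s < P.thr s (cnt (fun k => Al s (ext D (Y k))) + 1)) ∧
      ∀ k, ¬ St s (ext D (Y k))

section vertex

variable (hC : StmtVertex P) {D t : ℕ}
  (hd : ∀ s < t, Pr (fun x : Om P D =>
    Al s (ext D x) ∧ ¬ St s (ext D x) ∧ ¬ Al (s + 1) (ext D x)) = ld P s)
  (E : Om P D → Prop) (hE : ∀ x, E x → Al t (ext D x))

include hC hd hE

theorem V2 (ht : t < P.K) :
    Pr (fun z : (Fin P.K → Fin P.N) × (Fin 3 → Om P D) =>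
      Sv D t z.1 z.2 ∧ (∀ k, Al t (ext D (z.2 k)) → E (z.2 k)) ∧
        clk P z.1 t < P.thr t (cnt (fun k => Al t (ext D (z.2 k))) + 1)) =
    ev 3 (fun j => pr P t (j + 1)) (Pr E) (lg P t) := by
  rw [Pr_part _ (fun z => cnt (fun k => Al t (ext D (z.2 k)))) 3 (fun _ => cnt_le _)]
  unfold ev
  apply Finset.sum_congr rfl
  intro j hj
  have hj' : j ≤ 3 := by rw [mem_range] at hj; omega
  have h := (hC (fun s x => Al s (ext D x)) (fun s x => St s (ext D x)) (fun x => trivial)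
    (fun s x => St_Al) (fun s x => Al_succ) 3 (fun _ => 1) (ld P) t ht.le hd E hE j hj').2 ht
    (P.thr t (j + 1)) (P.hthr _ _)
  rw [lg_eq]
  have e : Pr (fun z : (Fin P.K → Fin P.N) × (Fin 3 → Om P D) =>
      (Sv D t z.1 z.2 ∧ (∀ k, Al t (ext D (z.2 k)) → E (z.2 k)) ∧
        clk P z.1 t < P.thr t (cnt (fun k => Al t (ext D (z.2 k))) + 1)) ∧
        cnt (fun k => Al t (ext D (z.2 k))) = j) =
      Pr (fun z : (Fin P.K → Fin P.N) × (Fin 3 → Om P D) =>
        (∀ s < t, ¬ (clk P z.1 s < P.thr s (cnt (fun k => Al s (ext D (z.2 k))) + 1)) ∧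
          ∀ k, ¬ St s (ext D (z.2 k))) ∧
        cnt (fun k => Al t (ext D (z.2 k))) = j ∧
          (∀ k, Al t (ext D (z.2 k)) → E (z.2 k)) ∧ clk P z.1 t < P.thr t (j + 1)) := by
    apply Pr_congr'
    intro z
    constructor
    · rintro ⟨⟨h1, h2, h3⟩, h4⟩
      exact ⟨h1, h4, h2, by rw [← h4]; exact h3⟩
    · rintro ⟨h1, h4, h2, h3⟩
      exact ⟨⟨h1, h2, by rw [h4]; exact h3⟩, h4⟩
  rw [e]
  refine h.trans ?_
  change _ = _ * _ * pr P t (j + 1) * _
  unfold pr
  ring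

theorem V1 (ht : t ≤ P.K) :
    Pr (fun z : (Fin P.K → Fin P.N) × (Fin 3 → Om P D) =>
      Sv D t z.1 z.2 ∧ (∀ k, Al t (ext D (z.2 k)) → E (z.2 k))) =
    ev 3 (fun _ => 1) (Pr E) (lg P t) := by
  rw [Pr_part _ (fun z => cnt (fun k => Al t (ext D (z.2 k)))) 3 (fun _ => cnt_le _)]
  unfold ev
  apply Finset.sum_congr rfl
  intro j hj
  have hj' : j ≤ 3 := by rw [mem_range] at hj; omega
  have h := (hC (fun s x => Al s (ext D x)) (fun s x => St s (ext D x)) (fun x => trivial)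
    (fun s x => St_Al) (fun s x => Al_succ) 3 (fun _ => 1) (ld P) t ht hd E hE j hj').1
  rw [lg_eq]
  have e : Pr (fun z : (Fin P.K → Fin P.N) × (Fin 3 → Om P D) =>
      (Sv D t z.1 z.2 ∧ (∀ k, Al t (ext D (z.2 k)) → E (z.2 k))) ∧
        cnt (fun k => Al t (ext D (z.2 k))) = j) =
      Pr (fun z : (Fin P.K → Fin P.N) × (Fin 3 → Om P D) =>
        (∀ s < t, ¬ (clk P z.1 s < P.thr s (cnt (fun k => Al s (ext D (z.2 k))) + 1)) ∧
          ∀ k, ¬ St s (ext D (z.2 k))) ∧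
        cnt (fun k => Al t (ext D (z.2 k))) = j ∧
          (∀ k, Al t (ext D (z.2 k)) → E (z.2 k))) := by
    apply Pr_congr'
    intro z
    constructor
    · rintro ⟨⟨h1, h2⟩, h4⟩
      exact ⟨h1, h4, h2⟩
    · rintro ⟨h1, h4, h2⟩
      exact ⟨⟨h1, h2⟩, h4⟩
  rw [e]
  refine h.trans ?_
  ring

theorem V3 (ht : t < P.K) :
    Pr (fun z : (Fin P.K → Fin P.N) × (Fin 3 → Om P D) =>
      (Sv D t z.1 z.2 ∧ (∀ k, Al t (ext D (z.2 k)) → E (z.2 k))) ∧
        ¬ clk P z.1 t < P.thr t (cnt (fun k => Al t (ext D (z.2 k))) + 1)) =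
    ev 3 (fun j => 1 - pr P t (j + 1)) (Pr E) (lg P t) := by
  have h1 := V1 hC hd E hE ht.le
  have h2 := V2 hC hd E hE ht
  have h3 := Pr_sub' (A := fun z : (Fin P.K → Fin P.N) × (Fin 3 → Om P D) =>
      Sv D t z.1 z.2 ∧ (∀ k, Al t (ext D (z.2 k)) → E (z.2 k)))
      (B := fun z => Sv D t z.1 z.2 ∧ (∀ k, Al t (ext D (z.2 k)) → E (z.2 k)) ∧
        clk P z.1 t < P.thr t (cnt (fun k => Al t (ext D (z.2 k))) + 1))
      (fun z h => ⟨h.1, h.2.1⟩)
  rw [h1, h2] at h3
  have e : ev 3 (fun j => 1 - pr P t (j + 1)) (Pr E) (lg P t) =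
      ev 3 (fun _ => 1) (Pr E) (lg P t) - ev 3 (fun j => pr P t (j + 1)) (Pr E) (lg P t) := by
    unfold ev
    rw [← Finset.sum_sub_distrib]
    apply Finset.sum_congr rfl
    intro j _
    ring
  rw [e, ← h3]
  apply Pr_congr'
  intro z
  constructor
  · rintro ⟨⟨h1, h2⟩, h3⟩
    exact ⟨⟨h1, h2⟩, fun h => h3 h.2.2⟩
  · rintro ⟨⟨h1, h2⟩, h3⟩
    exact ⟨⟨h1, h2⟩, fun h => h3 ⟨h1, h2, h⟩⟩

end vertex

/-! ### The induction -/

theorem Al_split (D t : ℕ) (X : Om P (D + 1)) :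
    Al t (ext (D + 1) X) ↔ Sv D t (split D X).1.1 (split D X).2 :=
  Al_iff t (ext (D + 1) X)

theorem Rg_split (D t : ℕ) (X : Om P (D + 1)) :
    Rg t (ext (D + 1) X) ↔ Sv D t (split D X).1.1 (split D X).2 ∧
      clk P (split D X).1.1 t <
        P.thr t (cnt (fun k => Al t (ext D ((split D X).2 k))) + 1) :=
  and_congr (Al_split D t X) Iff.rfl

theorem ext_sub_root (D : ℕ) (X : Om P (D + 1)) (i : Fin 3) :
    ext (D + 1) X [i] = ext D ((split D X).2 i) [] := rfl

/-- beating all ringing children -/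
def Ev (D t : ℕ) (ℓ : ZMod P.M) (x : Om P D) : Prop :=
  Al t (ext D x) ∧ ¬ (Rg t (ext D x) ∧ ¬ beats ℓ (ext D x []).2)

theorem St_split (D t : ℕ) (X : Om P (D + 1)) :
    St t (ext (D + 1) X) ↔ Sv D t (split D X).1.1 (split D X).2 ∧
      (∀ k, Al t (ext D ((split D X).2 k)) → Ev D t (split D X).1.2 ((split D X).2 k)) ∧
      clk P (split D X).1.1 t <
        P.thr t (cnt (fun k => Al t (ext D ((split D X).2 k))) + 1) := by
  have h : St t (ext (D + 1) X) ↔ Rg t (ext (D + 1) X) ∧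
      ∀ i, Rg t (ext D ((split D X).2 i)) →
        beats (split D X).1.2 (ext D ((split D X).2 i) []).2 := Iff.rfl
  rw [h, Rg_split]
  constructor
  · rintro ⟨⟨h1, h2⟩, h3⟩
    exact ⟨h1, fun k hk => ⟨hk, fun h' => h'.2 (h3 k h'.1)⟩, h2⟩
  · rintro ⟨h1, h2, h3⟩
    refine ⟨⟨h1, h3⟩, fun i hi => ?_⟩
    by_contra hb
    exact (h2 i (Rg_Al hi)).2 ⟨hi, hb⟩

theorem Al_succ_split (D t : ℕ) (X : Om P (D + 1)) :
    Al (t + 1) (ext (D + 1) X) ↔ (Sv D t (split D X).1.1 (split D X).2 ∧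
      (∀ k, Al t (ext D ((split D X).2 k)) →
        (Al t (ext D ((split D X).2 k)) ∧ ¬ St t (ext D ((split D X).2 k))))) ∧
      ¬ clk P (split D X).1.1 t <
        P.thr t (cnt (fun k => Al t (ext D ((split D X).2 k))) + 1) := by
  rw [Al_split]
  constructor
  · intro h
    refine ⟨⟨fun s hs => h s (by omega), fun k hk => ⟨hk, (h t (by omega)).2 k⟩⟩,
      (h t (by omega)).1⟩
  · rintro ⟨⟨h1, h2⟩, h3⟩ s hs
    rcases Nat.lt_succ_iff_lt_or_eq.1 hs with hs | rfl
    · exact h1 s hs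
    · exact ⟨h3, fun k hk => (h2 k (St_Al hk)).2 hk⟩

theorem const_avg (x : ℝ) : (∑ _ℓ : ZMod P.M, x) / P.M = x := by
  rw [Finset.sum_const, Finset.card_univ, ZMod.card, nsmul_eq_mul]
  have : (P.M : ℝ) ≠ 0 := by exact_mod_cast NeZero.ne P.M
  field_simp

section ind

variable (hC : StmtVertex P) {t : ℕ}

/-- the removal law for the children -/
def Hd (P : Par) (t D : ℕ) : Prop := ∀ s < t, Pr (fun x : Om P D =>
    Al s (ext D x) ∧ ¬ St s (ext D x) ∧ ¬ Al (s + 1) (ext D x)) = ld P s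

include hC

theorem law_r (ht : t < P.K) {D : ℕ} (hd : Hd P t D)
    (ha : Pr (fun X : Om P D => Al t (ext D X)) = la P t) :
    Pr (fun X : Om P (D + 1) => Rg t (ext (D + 1) X)) = lr P t := by
  rw [Pr_congr' (Rg_split D t), Pr_root D (fun u _ Y => Sv D t u Y ∧
      clk P u t < P.thr t (cnt (fun k => Al t (ext D (Y k))) + 1)), const_avg]
  have h := V2 hC hd (fun x => Al t (ext D x)) (fun x h => h) ht
  rw [ha] at h
  change _ = ev 3 (fun j => pr P t (j + 1)) (la P t) (lg P t)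
  rw [← h]
  apply Pr_congr'
  intro z
  constructor
  · rintro ⟨h1, h2⟩
    exact ⟨h1, fun k hk => hk, h2⟩
  · rintro ⟨h1, _, h2⟩
    exact ⟨h1, h2⟩

theorem law_r' (ht : t < P.K) {D : ℕ} (hd : Hd P t D)
    (ha : Pr (fun X : Om P D => Al t (ext D X)) = la P t) (ℓ : ZMod P.M) :
    Pr (fun X : Om P (D + 1) => Rg t (ext (D + 1) X) ∧ ¬ beats ℓ (ext (D + 1) X []).2) =
      bet' P * lr P t := by
  have e : ∀ X : Om P (D + 1), (Rg t (ext (D + 1) X) ∧ ¬ beats ℓ (ext (D + 1) X []).2) ↔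
      ((Sv D t (split D X).1.1 (split D X).2 ∧
      clk P (split D X).1.1 t <
        P.thr t (cnt (fun k => Al t (ext D ((split D X).2 k))) + 1)) ∧
        ¬ beats ℓ (split D X).1.2) := fun X => and_congr (Rg_split D t X) Iff.rfl
  rw [Pr_congr' e, Pr_root D (fun u b Y => (Sv D t u Y ∧
      clk P u t < P.thr t (cnt (fun k => Al t (ext D (Y k))) + 1)) ∧ ¬ beats ℓ b)]
  have h := V2 hC hd (fun x => Al t (ext D x)) (fun x h => h) ht
  rw [ha] at h
  apply sum_not_beats ℓ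
  · intro b hb
    change _ = ev 3 (fun j => pr P t (j + 1)) (la P t) (lg P t)
    rw [← h]
    apply Pr_congr'
    intro z
    constructor
    · rintro ⟨⟨h1, h2⟩, _⟩
      exact ⟨h1, fun k hk => hk, h2⟩
    · rintro ⟨h1, _, h2⟩
      exact ⟨⟨h1, h2⟩, hb⟩
  · intro b hb
    apply Pr_false'
    rintro z ⟨_, h⟩
    exact h hb

theorem law_s (ht : t < P.K) {D : ℕ} (hd : Hd P t D)
    (ha : Pr (fun X : Om P D => Al t (ext D X)) = la P t)
    (hr : ∀ ℓ : ZMod P.M, Pr (fun X : Om P D => Rg t (ext D X) ∧ ¬ beats ℓ (ext D X []).2) =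
      bet' P * lr P t) :
    Pr (fun X : Om P (D + 1) => St t (ext (D + 1) X)) = ls P t := by
  rw [Pr_congr' (St_split D t), Pr_root D (fun u ℓ Y => Sv D t u Y ∧
      (∀ k, Al t (ext D (Y k)) → Ev D t ℓ (Y k)) ∧
      clk P u t < P.thr t (cnt (fun k => Al t (ext D (Y k))) + 1))]
  have e : ∀ ℓ : ZMod P.M, Pr (fun z : (Fin P.K → Fin P.N) × (Fin 3 → Om P D) =>
      Sv D t z.1 z.2 ∧ (∀ k, Al t (ext D (z.2 k)) → Ev D t ℓ (z.2 k)) ∧
        clk P z.1 t < P.thr t (cnt (fun k => Al t (ext D (z.2 k))) + 1)) = ls P t := by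
    intro ℓ
    have h := V2 hC hd (Ev D t ℓ) (fun x h => h.1) ht
    rw [h]
    have h' : Pr (Ev D t ℓ) = la P t - bet' P * lr P t := by
      rw [← ha, ← hr ℓ]
      exact Pr_sub' (A := fun x : Om P D => Al t (ext D x))
        (B := fun x => Rg t (ext D x) ∧ ¬ beats ℓ (ext D x []).2) (fun x h => Rg_Al h.1)
    rw [h']
    rfl
  rw [Finset.sum_congr rfl (fun ℓ _ => e ℓ), const_avg]

theorem law_a (ht : t < P.K) {D : ℕ} (hd : Hd P t D)
    (ha : Pr (fun X : Om P D => Al t (ext D X)) = la P t)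
    (hs : Pr (fun X : Om P D => St t (ext D X)) = ls P t) :
    Pr (fun X : Om P (D + 1) => Al (t + 1) (ext (D + 1) X)) = la P (t + 1) := by
  rw [Pr_congr' (Al_succ_split D t), Pr_root D (fun u _ Y => (Sv D t u Y ∧
      (∀ k, Al t (ext D (Y k)) → (Al t (ext D (Y k)) ∧ ¬ St t (ext D (Y k))))) ∧
      ¬ clk P u t < P.thr t (cnt (fun k => Al t (ext D (Y k))) + 1)), const_avg]
  have h := V3 hC hd (fun x => Al t (ext D x) ∧ ¬ St t (ext D x)) (fun x h => h.1) ht
  rw [h, Pr_sub' (fun x h => St_Al h), ha, hs]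
  rfl

omit hC in
theorem law_d {D : ℕ}
    (ha : Pr (fun X : Om P D => Al t (ext D X)) = la P t)
    (hs : Pr (fun X : Om P D => St t (ext D X)) = ls P t)
    (ha' : Pr (fun X : Om P D => Al (t + 1) (ext D X)) = la P (t + 1)) :
    Pr (fun X : Om P D => Al t (ext D X) ∧ ¬ St t (ext D X) ∧ ¬ Al (t + 1) (ext D X)) =
      ld P t := by
  have h1 := Pr_sub' (A := fun X : Om P D => Al t (ext D X))
    (B := fun X : Om P D => St t (ext D X)) (fun x h => St_Al h)
  have h2 := Pr_sub' (A := fun X : Om P D => Al t (ext D X) ∧ ¬ St t (ext D X))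
    (B := fun X : Om P D => Al (t + 1) (ext D X)) (fun x h => Al_succ h)
  rw [h1, ha, hs, ha'] at h2
  unfold ld
  rw [← h2]
  apply Pr_congr'
  intro x
  exact and_assoc.symm

/-- the whole statement for one value of `t` -/
def AllAt (P : Par) (t : ℕ) : Prop :=
  (t ≤ P.K → ∀ D, 3 * t ≤ D → Pr (fun X : Om P D => Al t (ext D X)) = la P t) ∧
  (t < P.K → ∀ D, 3 * t + 1 ≤ D → Pr (fun X : Om P D => Rg t (ext D X)) = lr P t) ∧
  (t < P.K → ∀ D, 3 * t + 1 ≤ D → ∀ ℓ : ZMod P.M,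
    Pr (fun X : Om P D => Rg t (ext D X) ∧ ¬ beats ℓ (ext D X []).2)
      = bet' P * lr P t) ∧
  (t < P.K → ∀ D, 3 * t + 2 ≤ D → Pr (fun X : Om P D => St t (ext D X)) = ls P t) ∧
  (t < P.K → ∀ D, 3 * t + 3 ≤ D →
    Pr (fun X : Om P D => Al t (ext D X) ∧ ¬ St t (ext D X) ∧ ¬ Al (t + 1) (ext D X))
      = ld P t)

theorem step1 (ha : t ≤ P.K → ∀ D, 3 * t ≤ D → Pr (fun X : Om P D => Al t (ext D X)) = la P t)
    (hd : ∀ D, 3 * t ≤ D → t < P.K → Hd P t D) :
    AllAt P t ∧ (t + 1 ≤ P.K → ∀ D, 3 * (t + 1) ≤ D →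
      Pr (fun X : Om P D => Al (t + 1) (ext D X)) = la P (t + 1)) := by
  have hr : t < P.K → ∀ D, 3 * t + 1 ≤ D → Pr (fun X : Om P D => Rg t (ext D X)) = lr P t := by
    intro ht D hD
    obtain ⟨D, rfl⟩ : ∃ D', D = D' + 1 := ⟨D - 1, by omega⟩
    exact law_r hC ht (hd D (by omega) ht) (ha ht.le D (by omega))
  have hr' : t < P.K → ∀ D, 3 * t + 1 ≤ D → ∀ ℓ : ZMod P.M,
      Pr (fun X : Om P D => Rg t (ext D X) ∧ ¬ beats ℓ (ext D X []).2)
      = bet' P * lr P t := by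
    intro ht D hD
    obtain ⟨D, rfl⟩ : ∃ D', D = D' + 1 := ⟨D - 1, by omega⟩
    exact law_r' hC ht (hd D (by omega) ht) (ha ht.le D (by omega))
  have hs : t < P.K → ∀ D, 3 * t + 2 ≤ D → Pr (fun X : Om P D => St t (ext D X)) = ls P t := by
    intro ht D hD
    obtain ⟨D, rfl⟩ : ∃ D', D = D' + 1 := ⟨D - 1, by omega⟩
    exact law_s hC ht (hd D (by omega) ht) (ha ht.le D (by omega)) (hr' ht D (by omega))
  have ha' : t + 1 ≤ P.K → ∀ D, 3 * (t + 1) ≤ D →
      Pr (fun X : Om P D => Al (t + 1) (ext D X)) = la P (t + 1) := by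
    intro ht D hD
    obtain ⟨D, rfl⟩ : ∃ D', D = D' + 1 := ⟨D - 1, by omega⟩
    have ht' : t < P.K := ht
    exact law_a hC ht' (hd D (by omega) ht') (ha ht'.le D (by omega)) (hs ht' D (by omega))
  refine ⟨⟨ha, hr, hr', hs, ?_⟩, ha'⟩
  intro ht D hD
  exact law_d (ha ht.le D (by omega)) (hs ht D (by omega)) (ha' ht D (by omega))

theorem all (t : ℕ) : (∀ s ≤ t, AllAt P s) ∧ (t + 1 ≤ P.K → ∀ D, 3 * (t + 1) ≤ D →
      Pr (fun X : Om P D => Al (t + 1) (ext D X)) = la P (t + 1)) := by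
  induction t with
  | zero =>
    have h := step1 hC (t := 0) (fun _ D _ => Pr_true' (fun X => trivial))
      (fun D _ _ s hs => absurd hs (by omega))
    refine ⟨?_, h.2⟩
    intro s hs
    obtain rfl : s = 0 := by omega
    exact h.1
  | succ t ih =>
    have h := step1 hC (t := t + 1) ih.2 (fun D hD ht s hs =>
      (ih.1 s (by omega)).2.2.2.2 (by omega) D (by omega))
    refine ⟨?_, h.2⟩
    intro s hs
    rcases Nat.lt_or_ge s (t + 1) with h1 | h1
    · exact ih.1 s (by omega)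
    · obtain rfl : s = t + 1 := by omega
      exact h.1

end ind

/-- Packet D. -/
theorem stmtLaw (P : Par) (hC : StmtVertex P) : StmtLaw P := by
  have h : ∀ t, AllAt P t := fun t => (all hC t).1 t le_rfl
  exact ⟨fun t ht D hD => (h t).1 ht D hD, fun t ht D hD => (h t).2.1 ht D hD,
    fun t ht D hD => (h t).2.2.1 ht D hD, fun t ht D hD => (h t).2.2.2.1 ht D hD,
    fun t ht D hD => (h t).2.2.2.2 ht D hD⟩

end Pool.Agent.Helper82.Girth4
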