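import Pool.Agent.Helper41.Girth4.Stmts

/-!
# Packet I2 of MP_246f82_co: port graphs with hanging trees
-/

namespace Pool.Agent.Helper82.Girth4

open Pool.Agent.Helper41.Girth4

universe u

variable {V : Type u} (G : SimpleGraph V) (num : V → V → Fin 4)

/-- port `i` of `v` is real -/
def Real (v : V) (i : Fin 4) : Prop := ∃ u, G.Adj v u ∧ num v u = i

open Classical in
/-- neighbours -/
noncomputable def nbF : V ⊕ (V × Fin 4 × List (Fin 3)) → Fin 4 → V ⊕ (V × Fin 4 × List (Fin 3))
  | Sum.inl v, i => if h : Real G num v i then Sum.inl h.choose else Sum.inr (v, i, [])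
  | Sum.inr (v, i, []), j =>
      Fin.cases (if Real G num v i then Sum.inr (v, i, []) else Sum.inl v)
        (fun j' => Sum.inr (v, i, [j'])) j
  | Sum.inr (v, i, a :: w), j =>
      Fin.cases (Sum.inr (v, i, w)) (fun j' => Sum.inr (v, i, j' :: a :: w)) j

open Classical in
/-- reverse ports -/
noncomputable def revF : V ⊕ (V × Fin 4 × List (Fin 3)) → Fin 4 → Fin 4
  | Sum.inl v, i => if h : Real G num v i then num h.choose v else 0
  | Sum.inr (v, i, []), j =>
      Fin.cases (if Real G num v i then 0 else i) (fun _ => 0) j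
  | Sum.inr (_, _, a :: _), j => Fin.cases a.succ (fun _ => 0) j

variable {G num}

/-- the numbering is injective on neighbours -/
def Good (G : SimpleGraph V) (num : V → V → Fin 4) : Prop :=
  ∀ v a b, G.Adj v a → G.Adj v b → num v a = num v b → a = b

theorem choose_eq (hg : Good G num) {v u : V} (h : G.Adj v u) (h' : Real G num v (num v u)) :
    h'.choose = u :=
  hg v _ _ h'.choose_spec.1 h h'.choose_spec.2

theorem nb_real (hg : Good G num) {v u : V} (h : G.Adj v u) :
    nbF G num (Sum.inl v) (num v u) = Sum.inl u := by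
  have h' : Real G num v (num v u) := ⟨u, h, rfl⟩
  simp only [nbF, dif_pos h', choose_eq hg h h']

theorem rev_real (hg : Good G num) {v u : V} (h : G.Adj v u) :
    revF G num (Sum.inl v) (num v u) = num u v := by
  have h' : Real G num v (num v u) := ⟨u, h, rfl⟩
  simp only [revF, dif_pos h', choose_eq hg h h']

theorem nb_miss {v : V} {i : Fin 4} (h : ¬ Real G num v i) :
    nbF G num (Sum.inl v) i = Sum.inr (v, i, []) := by
  simp only [nbF, dif_neg h]

theorem rev_miss {v : V} {i : Fin 4} (h : ¬ Real G num v i) :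
    revF G num (Sum.inl v) i = 0 := by
  simp only [revF, dif_neg h]

theorem nb_root_miss {v : V} {i : Fin 4} (h : ¬ Real G num v i) :
    nbF G num (Sum.inr (v, i, [])) 0 = Sum.inl v := by
  simp only [nbF, Fin.cases_zero, if_neg h]

theorem rev_root_miss {v : V} {i : Fin 4} (h : ¬ Real G num v i) :
    revF G num (Sum.inr (v, i, [])) 0 = i := by
  simp only [revF, Fin.cases_zero, if_neg h]

theorem nb_root_real {v : V} {i : Fin 4} (h : Real G num v i) :
    nbF G num (Sum.inr (v, i, [])) 0 = Sum.inr (v, i, []) := by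
  simp only [nbF, Fin.cases_zero, if_pos h]

theorem rev_root_real {v : V} {i : Fin 4} (h : Real G num v i) :
    revF G num (Sum.inr (v, i, [])) 0 = 0 := by
  simp only [revF, Fin.cases_zero, if_pos h]

theorem nb_up {v : V} {i : Fin 4} {a : Fin 3} {w : List (Fin 3)} :
    nbF G num (Sum.inr (v, i, a :: w)) 0 = Sum.inr (v, i, w) := by
  simp only [nbF, Fin.cases_zero]

theorem rev_up {v : V} {i : Fin 4} {a : Fin 3} {w : List (Fin 3)} :
    revF G num (Sum.inr (v, i, a :: w)) 0 = a.succ := by
  simp only [revF, Fin.cases_zero]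

theorem nb_down {v : V} {i : Fin 4} {j : Fin 3} {w : List (Fin 3)} :
    nbF G num (Sum.inr (v, i, w)) j.succ = Sum.inr (v, i, j :: w) := by
  cases w <;> simp only [nbF, Fin.cases_succ]

theorem rev_down {v : V} {i : Fin 4} {j : Fin 3} {w : List (Fin 3)} :
    revF G num (Sum.inr (v, i, w)) j.succ = 0 := by
  cases w <;> simp only [revF, Fin.cases_succ]

/-- The port graph. -/
noncomputable def H (hg : Good G num) : PG (V ⊕ (V × Fin 4 × List (Fin 3))) where
  nb := nbF G num
  rev := revF G num
  nb_rev := by
    rintro (v | ⟨v, i, w⟩) j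
    · by_cases h : Real G num v j
      · obtain ⟨u, hu, rfl⟩ := h
        rw [nb_real hg hu, rev_real hg hu, nb_real hg hu.symm]
      · rw [nb_miss h, rev_miss h, nb_root_miss h]
    · refine Fin.cases ?_ (fun j => ?_) j
      · cases w with
        | nil =>
          by_cases h : Real G num v i
          · rw [nb_root_real h, rev_root_real h, nb_root_real h]
          · rw [nb_root_miss h, rev_root_miss h, nb_miss h]
        | cons a w => rw [nb_up, rev_up, nb_down]
      · rw [nb_down, rev_down, nb_up]
  rev_rev := by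
    rintro (v | ⟨v, i, w⟩) j
    · by_cases h : Real G num v j
      · obtain ⟨u, hu, rfl⟩ := h
        rw [nb_real hg hu, rev_real hg hu, rev_real hg hu.symm]
      · rw [nb_miss h, rev_miss h, rev_root_miss h]
    · refine Fin.cases ?_ (fun j => ?_) j
      · cases w with
        | nil =>
          by_cases h : Real G num v i
          · rw [nb_root_real h, rev_root_real h, rev_root_real h]
          · rw [nb_root_miss h, rev_root_miss h, rev_miss h]
        | cons a w => rw [nb_up, rev_up, rev_down]
      · rw [nb_down, rev_down, rev_up]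

theorem adj_of_nb {v u : V} {i : Fin 4} (h : nbF G num (Sum.inl v) i = Sum.inl u) :
    G.Adj v u ∧ num v u = i := by
  by_cases hr : Real G num v i
  · simp only [nbF, dif_pos hr, Sum.inl.injEq] at h
    have := hr.choose_spec
    rw [h] at this
    exact this
  · rw [nb_miss hr] at h
    cases h

variable (hg : Good G num)

theorem step_miss {x : V} {q : Fin 4} {c : Fin 3} (h : ¬ Real G num x (q.succAbove c)) :
    (H hg).step (Sum.inl x, q) c = (Sum.inr (x, q.succAbove c, []), 0) := by
  change (nbF G num (Sum.inl x) (q.succAbove c), revF G num (Sum.inl x) (q.succAbove c)) = _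
  rw [nb_miss h, rev_miss h]

theorem step_real {x y : V} {q : Fin 4} {c : Fin 3} (h : G.Adj x y)
    (hn : num x y = q.succAbove c) :
    (H hg).step (Sum.inl x, q) c = (Sum.inl y, num y x) := by
  change (nbF G num (Sum.inl x) (q.succAbove c), revF G num (Sum.inl x) (q.succAbove c)) = _
  rw [← hn, nb_real hg h, rev_real hg h]

theorem step_hang {v : V} {i : Fin 4} {z : List (Fin 3)} {c : Fin 3} :
    (H hg).step (Sum.inr (v, i, z), 0) c = (Sum.inr (v, i, c :: z), 0) := by
  change (nbF G num (Sum.inr (v, i, z)) ((0 : Fin 4).succAbove c),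
    revF G num (Sum.inr (v, i, z)) ((0 : Fin 4).succAbove c)) = _
  rw [Fin.succAbove_zero, nb_down, rev_down]

theorem go_hang (w : List (Fin 3)) : ∀ (v : V) (i : Fin 4) (z : List (Fin 3)),
    (H hg).go (Sum.inr (v, i, z), 0) w = (Sum.inr (v, i, w.reverse ++ z), 0) := by
  induction w with
  | nil => intro v i z; rfl
  | cons c w ih =>
    intro v i z
    rw [PG.go, step_hang, ih]
    simp

theorem decomp (w : List (Fin 3)) : ∀ (x : V) (q : Fin 4),
    (∃ y q', (H hg).go (Sum.inl x, q) w = (Sum.inl y, q')) ∨
    ∃ w₁ c w₂ y q', w = w₁ ++ c :: w₂ ∧ (H hg).go (Sum.inl x, q) w₁ = (Sum.inl y, q') ∧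
      (H hg).go (Sum.inl x, q) w = (Sum.inr (y, q'.succAbove c, w₂.reverse), 0) := by
  induction w with
  | nil => intro x q; exact Or.inl ⟨x, q, rfl⟩
  | cons c w ih =>
    intro x q
    by_cases h : Real G num x (q.succAbove c)
    · obtain ⟨y, hy, hn⟩ := h
      rcases ih y (num y x) with ⟨z, q', hz⟩ | ⟨w₁, c', w₂, z, q', h1, h2, h3⟩
      · left
        exact ⟨z, q', by rw [PG.go, step_real hg hy hn, hz]⟩
      · right
        refine ⟨c :: w₁, c', w₂, z, q', by rw [h1]; rfl, ?_, ?_⟩
        · rw [PG.go, step_real hg hy hn, h2]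
        · rw [PG.go, step_real hg hy hn, h3]
    · right
      refine ⟨[], c, w, x, q, rfl, rfl, ?_⟩
      rw [PG.go, step_miss hg h, go_hang]
      simp

theorem toWalk (w : List (Fin 3)) : ∀ (x : V) (q : Fin 4) (y : V) (q' : Fin 4),
    (H hg).go (Sum.inl x, q) w = (Sum.inl y, q') →
    ∃ p : G.Walk x y, p.length = w.length ∧
      (∀ k ≤ w.length, (Sum.inl (p.getVert k) : V ⊕ (V × Fin 4 × List (Fin 3))) =
        ((H hg).go (Sum.inl x, q) (w.take k)).1) ∧
      (∀ i, i + 2 ≤ p.length → p.getVert i ≠ p.getVert (i + 2)) ∧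
      (1 ≤ p.length → num x (p.getVert 1) ≠ q) := by
  induction w with
  | nil =>
    intro x q y q' h
    rw [PG.go] at h
    obtain rfl : x = y := by
      have := congrArg Prod.fst h
      exact Sum.inl_injective this
    refine ⟨SimpleGraph.Walk.nil, rfl, ?_, ?_, ?_⟩
    · intro k hk
      simp
      rfl
    · intro i hi
      simp at hi
    · intro h
      simp at h
  | cons c w ih =>
    intro x q y q' h
    by_cases hr : Real G num x (q.succAbove c)
    · obtain ⟨x', hx', hn⟩ := hr
      rw [PG.go, step_real hg hx' hn] at h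
      obtain ⟨p, hp1, hp2, hp3, hp4⟩ := ih x' (num x' x) y q' h
      refine ⟨SimpleGraph.Walk.cons hx' p, ?_, ?_, ?_, ?_⟩
      · simp [hp1]
      · intro k hk
        cases k with
        | zero => simp; rfl
        | succ k =>
          rw [SimpleGraph.Walk.getVert_cons_succ, List.take_succ_cons, PG.go,
            step_real hg hx' hn]
          exact hp2 k (by simpa using hk)
      · intro i hi
        cases i with
        | zero =>
          rw [SimpleGraph.Walk.length_cons] at hi
          intro heq
          rw [SimpleGraph.Walk.getVert_zero, SimpleGraph.Walk.getVert_cons_succ] at heq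
          exact hp4 (by omega) (by rw [← heq])
        | succ i =>
          rw [SimpleGraph.Walk.getVert_cons_succ]
          have : i + 1 + 2 = (i + 2) + 1 := by omega
          rw [this, SimpleGraph.Walk.getVert_cons_succ]
          rw [SimpleGraph.Walk.length_cons] at hi
          exact hp3 i (by omega)
      · intro _ heq
        rw [SimpleGraph.Walk.getVert_cons_succ, SimpleGraph.Walk.getVert_zero, hn] at heq
        exact Fin.succAbove_ne q c heq
    · rw [PG.go, step_miss hg hr, go_hang] at h
      have := congrArg Prod.fst h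
      cases this

theorem eq_of_verts (w : List (Fin 3)) : ∀ (w' : List (Fin 3)) (x : V) (q : Fin 4),
    w.length = w'.length →
    (∀ k ≤ w.length, ((H hg).go (Sum.inl x, q) (w.take k)).1 =
      ((H hg).go (Sum.inl x, q) (w'.take k)).1) →
    (∀ k ≤ w.length, ∃ y, ((H hg).go (Sum.inl x, q) (w.take k)).1 = Sum.inl y) → w = w' := by
  induction w with
  | nil =>
    intro w' x q hl _ _
    cases w' with
    | nil => rfl
    | cons c w' => simp at hl
  | cons c w ih =>
    intro w' x q hl h1 h2
    cases w' with
    | nil => simp at hl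
    | cons c' w' =>
      have e1 := h1 1 (by simp)
      obtain ⟨y, hy⟩ := h2 1 (by simp)
      rw [hy] at e1
      have hy' : nbF G num (Sum.inl x) (q.succAbove c) = Sum.inl y := hy
      have hy'' : nbF G num (Sum.inl x) (q.succAbove c') = Sum.inl y := e1.symm
      obtain ⟨ha, hn⟩ := adj_of_nb hy'
      obtain ⟨_, hn'⟩ := adj_of_nb hy''
      obtain rfl : c = c' := Fin.succAbove_right_injective (hn.symm.trans hn')
      congr 1
      apply ih w' y (num y x) (by simpa using hl)
      · intro k hk
        have := h1 (k + 1) (by simpa using hk)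
        rw [List.take_succ_cons, List.take_succ_cons, PG.go, PG.go, step_real hg ha hn] at this
        exact this
      · intro k hk
        have := h2 (k + 1) (by simpa using hk)
        rw [List.take_succ_cons, PG.go, step_real hg ha hn] at this
        exact this

theorem inj_real (hNB : StmtNB.{u}) {R : ℕ} (hR : ((2 * R : ℕ) : ℕ∞) < G.egirth)
    {w w' : List (Fin 3)} (hw : w.length ≤ R) (hw' : w'.length ≤ R) {x : V} {q : Fin 4} {y : V}
    {q₁ q₂ : Fin 4} (h1 : (H hg).go (Sum.inl x, q) w = (Sum.inl y, q₁))
    (h2 : (H hg).go (Sum.inl x, q) w' = (Sum.inl y, q₂)) : w = w' := by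
  obtain ⟨p, hp1, hp2, hp3, _⟩ := toWalk hg w x q y q₁ h1
  obtain ⟨p', hp1', hp2', hp3', _⟩ := toWalk hg w' x q y q₂ h2
  have hpp : p = p' := hNB V G R hR x y p p' (by omega) (by omega) hp3 hp3'
  subst hpp
  refine eq_of_verts hg w w' x q (by omega) ?_ ?_
  · intro k hk
    rw [← hp2 k hk, ← hp2' k (by omega)]
  · intro k hk
    exact ⟨_, (hp2 k hk).symm⟩

theorem stmtPorts (hNB : StmtNB.{u}) : StmtPorts.{u} := by
  intro V _ G _ R hdeg hR
  have hnum : ∀ v : V, ∃ f : V → Fin 4, ∀ a b, G.Adj v a → G.Adj v b → f a = f b → a = b := by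
    intro v
    have hc : Fintype.card (G.neighborSet v) ≤ Fintype.card (Fin 4) := by
      rw [SimpleGraph.card_neighborSet_eq_degree, Fintype.card_fin]
      exact hdeg v
    obtain ⟨e⟩ := Function.Embedding.nonempty_of_card_le hc
    classical
    refine ⟨fun a => if h : G.Adj v a then e ⟨a, h⟩ else 0, ?_⟩
    intro a b ha hb hab
    simp only [dif_pos ha, dif_pos hb] at hab
    have := e.injective hab
    simpa using this
  choose num hnum' using hnum
  have hg : Good G num := hnum'
  refine ⟨V × Fin 4 × List (Fin 3), H hg, ?_, ?_⟩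
  · intro u v
    constructor
    · intro h
      exact ⟨num u v, nb_real hg h⟩
    · rintro ⟨i, hi⟩
      exact (adj_of_nb (G := G) (num := num) hi).1
  · intro v q w hw w' hw' heq
    simp only [Set.mem_setOf_eq] at hw hw'
    change ((H hg).go (Sum.inl v, q) w).1 = ((H hg).go (Sum.inl v, q) w').1 at heq
    rcases decomp hg w v q with ⟨y, q₁, h1⟩ | ⟨w₁, c, w₂, y, q₁, h1, h2, h3⟩
    · rcases decomp hg w' v q with ⟨y', q₂, h1'⟩ | ⟨w₁', c', w₂', y', q₂, h1', h2', h3'⟩
      · rw [h1, h1'] at heq
        obtain rfl : y = y' := Sum.inl_injective heq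
        exact inj_real hg hNB hR hw hw' h1 h1'
      · rw [h1, h3'] at heq
        cases heq
    · rcases decomp hg w' v q with ⟨y', q₂, h1'⟩ | ⟨w₁', c', w₂', y', q₂, h1', h2', h3'⟩
      · rw [h3, h1'] at heq
        cases heq
      · rw [h3, h3'] at heq
        have heq' := Sum.inr_injective heq
        simp only [Prod.mk.injEq, List.reverse_inj] at heq'
        obtain ⟨rfl, hc, rfl⟩ := heq'
        have hl : w₁.length ≤ R := by
          rw [h1] at hw; simp at hw; omega
        have hl' : w₁'.length ≤ R := by
          rw [h1'] at hw'; simp at hw'; omega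
        obtain rfl : w₁ = w₁' := inj_real hg hNB hR hl hl' h2 h2'
        have hq : q₁ = q₂ := by
          have := h2.symm.trans h2'
          exact congrArg Prod.snd this
        subst hq
        obtain rfl : c = c' := Fin.succAbove_right_injective hc
        rw [h1, h1']

end Pool.Agent.Helper82.Girth4
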